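import Pool.Agent.MP_fcb590_an.Defs

namespace Pool.Agent.MP_fcb590_an

open Set

section General

variable {W : Type} [NormedAddCommGroup W] [NormedSpace ℝ W]

theorem eq_fderiv_of_norming {y : W} (hy : DifferentiableAt ℝ (fun w : W => ‖w‖) y)
    {φ : W →L[ℝ] ℝ} (h1 : ‖φ‖ ≤ 1) (h2 : φ y = ‖y‖) :
    φ = fderiv ℝ (fun w : W => ‖w‖) y := by
  have hmin : IsLocalMin (fun w : W => ‖w‖ - φ w) y := by
    refine Filter.Eventually.of_forall (fun w => ?_)
    have : φ w ≤ ‖w‖ := by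
      calc φ w ≤ ‖φ w‖ := le_abs_self _
        _ ≤ ‖φ‖ * ‖w‖ := φ.le_opNorm w
        _ ≤ 1 * ‖w‖ := by gcongr
        _ = ‖w‖ := one_mul _
    show ‖y‖ - φ y ≤ ‖w‖ - φ w
    linarith
  have hd : HasFDerivAt (fun w : W => ‖w‖ - φ w) (fderiv ℝ (fun w : W => ‖w‖) y - φ) y :=
    hy.hasFDerivAt.sub φ.hasFDerivAt
  have := hmin.hasFDerivAt_eq_zero hd
  exact (sub_eq_zero.1 this).symm

theorem exists_smooth_near [FiniteDimensional ℝ W] [Nontrivial W] (w : W) {δ : ℝ} (hδ : 0 < δ) :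
    ∃ y : W, ‖y - w‖ < δ ∧ y ≠ 0 ∧ DifferentiableAt ℝ (fun w : W => ‖w‖) y := by
  borelize W
  have hae : ∀ᵐ y ∂(MeasureTheory.Measure.addHaar : MeasureTheory.Measure W),
      DifferentiableAt ℝ (fun w : W => ‖w‖) y := lipschitzWith_one_norm.ae_differentiableAt
  have hd := MeasureTheory.Measure.dense_of_ae hae
  obtain ⟨y, hy1, hy2⟩ := hd.exists_dist_lt w hδ
  refine ⟨y, by rwa [dist_comm, dist_eq_norm] at hy2, ?_, hy1⟩
  rintro rfl
  exact not_differentiableAt_norm_zero W hy1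

theorem exists_norming_point [FiniteDimensional ℝ W] (h : W →L[ℝ] ℝ) :
    ∃ x : W, ‖x‖ ≤ 1 ∧ h x = ‖h‖ := by
  obtain ⟨x, hx, hmax⟩ := (isCompact_closedBall (0 : W) 1).exists_isMaxOn
    ⟨0, Metric.mem_closedBall_self zero_le_one⟩ h.continuous.continuousOn
  rw [mem_closedBall_zero_iff] at hx
  refine ⟨x, hx, le_antisymm ?_ ?_⟩
  · calc h x ≤ ‖h x‖ := le_abs_self _
      _ ≤ ‖h‖ * ‖x‖ := h.le_opNorm x
      _ ≤ ‖h‖ * 1 := by gcongr
      _ = ‖h‖ := mul_one _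
  · have h0 : 0 ≤ h x := by
      have := hmax (Metric.mem_closedBall_self (x := (0 : W)) zero_le_one)
      simpa using this
    refine h.opNorm_le_of_unit_norm h0 (fun z hz => ?_)
    have h1 : h z ≤ h x := hmax (mem_closedBall_zero_iff.2 hz.le)
    have h2 : h (-z) ≤ h x := hmax (mem_closedBall_zero_iff.2 (by rw [norm_neg]; exact hz.le))
    rw [map_neg] at h2
    rw [Real.norm_eq_abs, abs_le]
    constructor <;> linarith

end General

variable {X : Type} [NormedAddCommGroup X] [NormedSpace ℝ X]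

/-- Exposed points of the unit ball. -/
def ExpV (X : Type) [NormedAddCommGroup X] [NormedSpace ℝ X] : Set X :=
  {v | ‖v‖ = 1 ∧ ∃ g : X →L[ℝ] ℝ, ‖g‖ = 1 ∧ g v = 1 ∧ ∀ x : X, ‖x‖ ≤ 1 → g x = 1 → x = v}

/-- Exposed points of the dual unit ball. -/
def ExpF (X : Type) [NormedAddCommGroup X] [NormedSpace ℝ X] : Set (X →L[ℝ] ℝ) :=
  {f | ‖f‖ = 1 ∧ ∃ y : X, ‖y‖ = 1 ∧ f y = 1 ∧ ∀ f' : X →L[ℝ] ℝ, ‖f'‖ ≤ 1 → f' y = 1 → f' = f}

theorem norm_le_of_expF [FiniteDimensional ℝ X] [Nontrivial X] (x : X) (a : ℝ)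
    (ha : ∀ f ∈ ExpF X, f x ≤ a) : ‖x‖ ≤ a := by
  refine le_of_forall_pos_le_add (fun δ hδ => ?_)
  obtain ⟨y, hyx, hy0, hyd⟩ := exists_smooth_near x (half_pos hδ)
  obtain ⟨f, hf1, hfy⟩ := exists_dual_vector ℝ y (norm_ne_zero_iff.2 hy0)
  have hfy' : f y = ‖y‖ := by simpa using hfy
  have hyn : 0 < ‖y‖ := norm_pos_iff.2 hy0
  have hF : f ∈ ExpF X := by
    refine ⟨hf1, ‖y‖⁻¹ • y, ?_, ?_, fun f' hf' hf'y => ?_⟩
    · rw [norm_smul, norm_inv, norm_norm, inv_mul_cancel₀ hyn.ne']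
    · rw [map_smul, hfy', smul_eq_mul, inv_mul_cancel₀ hyn.ne']
    · rw [map_smul, smul_eq_mul] at hf'y
      have : f' y = ‖y‖ := by
        field_simp at hf'y
        linarith
      rw [eq_fderiv_of_norming hyd hf' this, ← eq_fderiv_of_norming hyd hf1.le hfy']
  have h1 := ha f hF
  have h2 : f (y - x) ≤ ‖y - x‖ := by
    calc f (y - x) ≤ ‖f (y - x)‖ := le_abs_self _
      _ ≤ ‖f‖ * ‖y - x‖ := f.le_opNorm _
      _ = ‖y - x‖ := by rw [hf1, one_mul]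
  have h3 : ‖x‖ ≤ ‖y‖ + ‖y - x‖ := by
    have := norm_sub_le y (y - x)
    simpa using this
  rw [map_sub] at h2
  linarith

theorem norm_le_of_expV [FiniteDimensional ℝ X] [Nontrivial X] (g : X →L[ℝ] ℝ) (b : ℝ)
    (hb : ∀ v ∈ ExpV X, g v ≤ b) : ‖g‖ ≤ b := by
  haveI : Nontrivial (X →L[ℝ] ℝ) := by
    obtain ⟨x, hx⟩ := exists_ne (0 : X)
    obtain ⟨f, hf1, -⟩ := exists_dual_vector ℝ x (norm_ne_zero_iff.2 hx)
    exact ⟨⟨f, 0, fun e => by simp [e] at hf1⟩⟩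
  refine le_of_forall_pos_le_add (fun δ hδ => ?_)
  obtain ⟨h, hhg, hh0, hhd⟩ := exists_smooth_near g (half_pos hδ)
  obtain ⟨x, hx1, hx⟩ := exists_norming_point h
  have hhn : 0 < ‖h‖ := norm_pos_iff.2 hh0
  have hxn : ‖x‖ = 1 := by
    refine le_antisymm hx1 ?_
    have : ‖h‖ ≤ ‖h‖ * ‖x‖ := by
      calc ‖h‖ = h x := hx.symm
        _ ≤ ‖h x‖ := le_abs_self _
        _ ≤ ‖h‖ * ‖x‖ := h.le_opNorm x
    exact le_of_mul_le_mul_left (by simpa using this) hhn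
  have hV : x ∈ ExpV X := by
    refine ⟨hxn, ‖h‖⁻¹ • h, ?_, ?_, fun x' hx' hhx' => ?_⟩
    · rw [norm_smul, norm_inv, norm_norm, inv_mul_cancel₀ hhn.ne']
    · rw [ContinuousLinearMap.smul_apply, hx, smul_eq_mul, inv_mul_cancel₀ hhn.ne']
    · rw [ContinuousLinearMap.smul_apply, smul_eq_mul] at hhx'
      have e : h x' = ‖h‖ := by
        field_simp at hhx'
        linarith
      have n1 : ∀ z : X, ‖z‖ ≤ 1 → ‖ContinuousLinearMap.apply ℝ ℝ z‖ ≤ 1 := by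
        intro z hz
        refine ContinuousLinearMap.opNorm_le_bound _ zero_le_one (fun k => ?_)
        rw [ContinuousLinearMap.apply_apply, one_mul]
        calc ‖k z‖ ≤ ‖k‖ * ‖z‖ := k.le_opNorm z
          _ ≤ ‖k‖ * 1 := by gcongr
          _ = ‖k‖ := mul_one _
      have e1 := eq_fderiv_of_norming hhd (n1 x' hx') (by simpa using e)
      have e2 := eq_fderiv_of_norming hhd (n1 x hx1) (by simpa using hx)
      rw [← e2] at e1
      refine (SeparatingDual.eq_iff_forall_dual_eq (R := ℝ)).2 (fun k => ?_)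
      have := congrArg (fun φ : (X →L[ℝ] ℝ) →L[ℝ] ℝ => φ k) e1
      simpa using this
  have h1 := hb x hV
  have h2 : (h - g) x ≤ ‖h - g‖ := by
    calc (h - g) x ≤ ‖(h - g) x‖ := le_abs_self _
      _ ≤ ‖h - g‖ * ‖x‖ := (h - g).le_opNorm _
      _ = ‖h - g‖ := by rw [hxn, mul_one]
  have h3 : ‖g‖ ≤ ‖h‖ + ‖h - g‖ := by
    have := norm_sub_le h (h - g)
    simpa using this
  rw [ContinuousLinearMap.sub_apply] at h2
  linarith

/-- One direction of McGregor's characterisation, for exposed points. -/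
theorem abs_apply_eq_one [FiniteDimensional ℝ X] (hX : numIndex X = 1) {f : X →L[ℝ] ℝ}
    (hf : f ∈ ExpF X) {v : X} (hv : v ∈ ExpV X) : f v = 1 ∨ f v = -1 := by
  obtain ⟨hf1, y, hy1, hfy, hfu⟩ := hf
  obtain ⟨hv1, g, hg1, hgv, hgu⟩ := hv
  let T : X →L[ℝ] X := g.smulRight y
  have hT : ‖T‖ = 1 := by
    simp only [T, ContinuousLinearMap.norm_smulRight_apply, hg1, hy1, mul_one]
  have hrad : 1 ≤ numRadius T := by
    rw [← hX]
    refine csInf_le ⟨0, ?_⟩ ⟨T, hT, rfl⟩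
    rintro r ⟨S, -, rfl⟩
    refine Real.sSup_nonneg ?_
    rintro r ⟨x, k, -, -, -, rfl⟩
    exact abs_nonneg _
  let K : Set (X × (X →L[ℝ] ℝ)) := {p | ‖p.1‖ = 1 ∧ ‖p.2‖ = 1 ∧ p.2 p.1 = 1}
  have hKc : IsCompact K := by
    refine ((isCompact_sphere (0 : X) 1).prod (isCompact_sphere (0 : X →L[ℝ] ℝ) 1)).of_isClosed_subset
      ?_ ?_
    · refine (isClosed_eq (by fun_prop) continuous_const).inter
        ((isClosed_eq (by fun_prop) continuous_const).inter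
          (isClosed_eq (by fun_prop) continuous_const))
    · rintro p ⟨h1, h2, -⟩
      exact ⟨mem_sphere_zero_iff_norm.2 h1, mem_sphere_zero_iff_norm.2 h2⟩
  have hset : {r : ℝ | ∃ (x : X) (k : X →L[ℝ] ℝ), ‖x‖ = 1 ∧ ‖k‖ = 1 ∧ k x = 1 ∧ r = |k (T x)|}
      = (fun p : X × (X →L[ℝ] ℝ) => |p.2 (T p.1)|) '' K := by
    ext r
    constructor
    · rintro ⟨x, k, h1, h2, h3, rfl⟩
      exact ⟨(x, k), ⟨h1, h2, h3⟩, rfl⟩
    · rintro ⟨p, ⟨h1, h2, h3⟩, rfl⟩
      exact ⟨p.1, p.2, h1, h2, h3, rfl⟩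
  have hmem : numRadius T ∈ (fun p : X × (X →L[ℝ] ℝ) => |p.2 (T p.1)|) '' K := by
    unfold numRadius
    rw [hset]
    exact (hKc.image (by fun_prop)).sSup_mem ⟨_, ⟨(y, f), ⟨hy1, hf1, hfy⟩, rfl⟩⟩
  obtain ⟨⟨x, k⟩, ⟨hx1, hk1, hkx⟩, hval⟩ := hmem
  simp only at hx1 hk1 hkx hval
  have hT' : k (T x) = g x * k y := by
    simp [T]
  rw [hT', abs_mul] at hval
  have b1 : |g x| ≤ 1 := by
    have := g.le_opNorm x
    rwa [hg1, hx1, one_mul] at this
  have b2 : |k y| ≤ 1 := by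
    have := k.le_opNorm y
    rwa [hk1, hy1, one_mul] at this
  have e1 : |g x| = 1 := by nlinarith [abs_nonneg (g x), abs_nonneg (k y)]
  have e2 : |k y| = 1 := by nlinarith [abs_nonneg (g x), abs_nonneg (k y)]
  have hxv : x = v ∨ x = -v := by
    rcases (abs_eq zero_le_one).1 e1 with e | e
    · exact Or.inl (hgu x hx1.le e)
    · right
      have := hgu (-x) (by rw [norm_neg]; exact hx1.le) (by rw [map_neg, e, neg_neg])
      rw [← this, neg_neg]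
  have hkf : k = f ∨ k = -f := by
    rcases (abs_eq zero_le_one).1 e2 with e | e
    · exact Or.inl (hfu k hk1.le e)
    · right
      have := hfu (-k) (by rw [norm_neg]; exact hk1.le)
        (by rw [ContinuousLinearMap.neg_apply, e, neg_neg])
      rw [← this, neg_neg]
  rcases hxv with rfl | rfl <;> rcases hkf with rfl | rfl
  · exact Or.inl hkx
  · right; rw [ContinuousLinearMap.neg_apply] at hkx; linarith
  · right; rw [map_neg] at hkx; linarith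
  · left; rw [ContinuousLinearMap.neg_apply, map_neg, neg_neg] at hkx; exact hkx

end Pool.Agent.MP_fcb590_an
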